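import Pool.Agent.Lib.H7B.G56
import Pool.Agent.Lib.H8C.FA
import Pool.Agent.Lib.H40X.X

/-!
# H7B, file In: the inputs `G1` (helper8) and `G2` (helper40), the final form of TWO

`two_acyN`: the step of the degree induction for two simple cycles, without geometric hypotheses.
-/

set_option autoImplicit false
set_option linter.unusedSectionVars false

namespace H7B

open H53P H30P H10S H36L H40X Finset

variable {V : Type*}

theorem g1_holds [DecidableEq V] (T : Table V) : G1 T := by
  intro w p A B h Z h1 h2 h3
  exact room_fa h Z h1 (fun s t x y => h2 _ _ _ _) (fun s t h4 h5 => h3 s t h5 h4)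

theorem g2_holds [DecidableEq V] (T : Table V) : G2 T := by
  intro w p A B w' p' c c' s t s' t' h h' e0 e1 c0 cp c0' cp' hv hd he he'
  exact lemx h h' e0 e1 c0 cp c0' cp' hv hd he he'

variable [Fintype V] [DecidableEq V] {T : Table V} {cross : Sym2 V → Sym2 V → Prop}

/-- TWO, the step of the degree induction -/
theorem two_acyN (hS : Sees T cross) (hG : H98M.Geo cross) {n : ℕ} (hH : ∀ W, H66N.HCk cross n W)
    {a b : ℕ → V} {p m : ℕ} (h : Two T a p b m) (hc : Crn T a b p m) :
    H66N.AcyN cross (n + 1) (BE cross a b p m) :=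
  two_step hS hG (g1_holds T) (g2_holds T) (g5_holds T) (g6_holds T) hH h hc

/-- TWO in degree `0` -/
theorem two_zero (hS : Sees T cross) (hG : H98M.Geo cross) {a b : ℕ → V} {p m : ℕ} (h : Two T a p b m) :
    H66N.AcyN cross 0 (BE cross a b p m) := by
  obtain ⟨i, j, hb⟩ := H56C.two_nonempty hG hS h
  exact H66N.acyN_zero ((mem_be h hS).2 ⟨i, j, hb, rfl⟩) (hS.irr _)

end H7B
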