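import Pool.Agent.Lib.H7B.UpN
import Pool.Agent.Lib.H40X.Defs
import Pool.Agent.Lib.H30P.TwoU
import Pool.Agent.Lib.H36L.NS
import Pool.Agent.Lib.H56C.C3

/-!
# H7B, file Asm: TWO in degree `n + 1` from the cut vertex statements in degree `n`

Inputs: `G1` (every plane set of chords without a chord in the room has an enclosing chord or a cut index), `G2`
(no enclosing chords for an upper and a lower room with a common inner vertex), `G5`, `G6` (the upper and the
lower room of a crossing pair of bridging edges).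

`two_step`: `AcyN cross (n + 1) (BE cross a b p m)` from `HCk cross n W` for all `W`.
-/

set_option autoImplicit false
set_option linter.unusedSectionVars false

namespace H7B

open H53P H30P H10S H36L H40X H33U Finset

variable {V : Type*}

section
variable [DecidableEq V]

/-- INPUT G1 (FA) -/
def G1 (T : Table V) : Prop :=
  ∀ (w : ℕ → V) (p : ℕ) (A B : V), Room T w p A B → ∀ Z : Finset (Sym2 V),
    (∀ e ∈ Z, ∃ s t, s + 2 ≤ t ∧ t ≤ p ∧ Mis T w p (w s) (w t) ∧ e = s(w s, w t)) →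
    (∀ a b c d, s(a, b) ∈ Z → s(c, d) ∈ Z → T.X a b c d = false) →
    (∀ s t, NCh T w p A B s t → s(w s, w t) ∉ Z) →
    (∃ s t, s(w s, w t) ∈ Z ∧ Enc T w p A B s t) ∨
      ∃ c, 0 < c ∧ c < p ∧ ∀ s t, s < c → c < t → t ≤ p → s(w s, w t) ∉ Z

/-- INPUT G2 (lemma X) -/
def G2 (T : Table V) : Prop :=
  ∀ (w : ℕ → V) (p : ℕ) (A B : V) (w' : ℕ → V) (p' c c' s t s' t' : ℕ), Room T w p A B →
    Room T w' p' (w 0) (w p) → w' 0 = A → w' p' = B → 0 < c → c < p → 0 < c' → c' < p' → w c = w' c' →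
    (∀ i ≤ p, ∀ j ≤ p', w i = w' j → i = c) →
    Enc T w p A B s t → Enc T w' p' (w 0) (w p) s' t' → False

/-- INPUT G5: the upper room of `c = a i b l`, `d = a k b j` -/
def G5 (T : Table V) : Prop :=
  ∀ (a b : ℕ → V) (p m i k l j : ℕ), Two T a p b m → Crn T a b p m → i < k → j < l →
    Br T a b p m i l → Br T a b p m k j →
    ∃ (w : ℕ → V) (q c : ℕ), Room T w q (a i) (b j) ∧ w 0 = a k ∧ w q = b l ∧ 0 < c ∧ c < q ∧ w c = a 0 ∧
      (∀ x ≤ q, w x = a 0 ∨ (∃ t, k ≤ t ∧ t ≤ p ∧ w x = a t) ∨ ∃ t, l ≤ t ∧ t ≤ m ∧ w x = b t) ∧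
      ∀ e, (∃ x y, NCh T w q (a i) (b j) x y ∧ x < c ∧ c < y ∧ s(w x, w y) = e) ↔
        ∃ x y, Br T a b p m x y ∧ k ≤ x ∧ l ≤ y ∧ e = s(a x, b y)

/-- INPUT G6: the lower room -/
def G6 (T : Table V) : Prop :=
  ∀ (a b : ℕ → V) (p m i k l j : ℕ), Two T a p b m → Crn T a b p m → i < k → j < l →
    Br T a b p m i l → Br T a b p m k j →
    ∃ (w : ℕ → V) (q c : ℕ), Room T w q (a k) (b l) ∧ w 0 = a i ∧ w q = b j ∧ 0 < c ∧ c < q ∧ w c = a 0 ∧
      (∀ x ≤ q, w x = a 0 ∨ (∃ t, 1 ≤ t ∧ t ≤ i ∧ w x = a t) ∨ ∃ t, 1 ≤ t ∧ t ≤ j ∧ w x = b t) ∧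
      ∀ x y, NCh T w q (a k) (b l) x y → x < c → c < y → ∃ x' y', Br T a b p m x' y' ∧ x' ≤ i ∧ y' ≤ j

end

section
variable [Fintype V] [DecidableEq V] {T : Table V} {cross : Sym2 V → Sym2 V → Prop}

/-- rooms with given corner, given ends, given marked vertex, vertices with property `Q` -/
def RR (T : Table V) (Q : V → Prop) (A B u v z : V) (w : ℕ → V) (p c : ℕ) : Prop :=
  Room T w p A B ∧ w 0 = u ∧ w p = v ∧ 0 < c ∧ c < p ∧ w c = z ∧ ∀ i ≤ p, Q (w i)

theorem iy_eq : iy = ix := rfl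

theorem ix_zero {j k : ℕ} : ix j k 0 = 0 := by
  unfold ix
  rw [if_pos (Nat.zero_le j)]

theorem ix_top {j k p : ℕ} (h : j + 2 ≤ k) (hk : k ≤ p) : ix j k (p - (k - j - 1)) = p := by
  unfold ix
  rw [if_neg (by omega)]
  omega

/-- a room system -/
theorem roomsys (hS : Sees T cross) {Q : V → Prop} {A B u v z : V} :
    RoomSys cross (RR T Q A B u v z) (fun w p => NCh T w p A B) where
  pos h := ⟨h.2.2.2.1, h.2.2.2.2.1⟩
  inj h := h.1.inj
  pl h := by
    intro e he f hf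
    obtain ⟨i, hi, rfl⟩ := mem_PE.1 he
    obtain ⟨j, hj, rfl⟩ := mem_PE.1 hf
    rw [hS.iff, h.1.plane i hi j hj]
    simp
  ch _ h := ⟨h.lt, h.le⟩
  mis _ h := by
    intro f hf
    obtain ⟨j, hj, rfl⟩ := mem_PE.1 hf
    rw [hS.iff, h.mis j hj]
    simp
  il h h1 h2 := by
    rw [hS.iff]
    exact nch_iff h.1 h1 h2
  sh {w p c j k} h h1 h2 := by
    have g1 := h1.lt
    have g2 := h1.le
    obtain ⟨r1, r2, r3, r4, r5, r6, r7⟩ := h
    refine ⟨short_room r1 h1 (by omega), ?_, ?_, ?_, ?_, ?_, ?_⟩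
    · show w (ix j k 0) = u
      rw [ix_zero, r2]
    · show w (ix j k (p - (k - j - 1))) = v
      rw [ix_top g1 g2, r3]
    · split_ifs <;> omega
    · split_ifs <;> omega
    · show w (ix j k (if c ≤ j then c else c - (k - j - 1))) = z
      have e : ix j k (if c ≤ j then c else c - (k - j - 1)) = c := by
        unfold ix
        split_ifs <;> omega
      rw [e, r6]
    · intro t ht
      show Q (w (ix j k t))
      apply r7
      unfold ix
      split_ifs <;> omega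
  shn {w p c j k} h h1 h2 := by
    intro x y
    have g1 := h1.lt
    have g2 := h1.le
    have r1 := h.1
    have r4 := h.2.2.2.1
    have r5 := h.2.2.2.2.1
    constructor
    · intro h3
      exact ⟨h3.lt, h3.le, short_nch r1 h1 (by omega) h3⟩
    · rintro ⟨h3, _, h5⟩
      exact short_nch' r1 h1 (by omega) h3 h5

/-- `G1` in the form `Cut` -/
theorem cut_of (hS : Sees T cross) (g1 : G1 T) {w : ℕ → V} {p : ℕ} {A B : V} (h : Room T w p A B) :
    Cut cross (fun w p => NCh T w p A B) w p ∨ ∃ s t, Enc T w p A B s t := by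
  by_cases hE : ∃ s t, Enc T w p A B s t
  · exact Or.inr hE
  · left
    intro Z hZ hZp hZN
    refine (g1 w p A B h Z ?_ ?_ ?_).resolve_left (fun ⟨s, t, _, h2⟩ => hE ⟨s, t, h2⟩)
    · intro e he
      have hm := H98Z.mem_un.1 (hZ he)
      induction e with
      | _ x y =>
        obtain ⟨hm1, hm2, hm3⟩ := hm
        rw [H98Z.mem_LW] at hm1
        obtain ⟨ha, hb, hab⟩ := hm1
        obtain ⟨i, hi, rfl⟩ := mem_VS.1 ha
        obtain ⟨j, hj, rfl⟩ := mem_VS.1 hb
        have hmis : ∀ t < p, T.X (w i) (w j) (w t) (w (t + 1)) = false := by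
          intro t ht
          have h5 := hm2 _ (mem_PE.2 ⟨t, ht, rfl⟩)
          rw [hS.iff] at h5
          simpa using h5
        rcases Nat.lt_trichotomy i j with h1 | h1 | h1
        · refine ⟨i, j, ?_, by omega, hmis, rfl⟩
          by_contra h6
          exact hm3 (mem_PE.2 ⟨i, by omega, by rw [show i + 1 = j by omega]⟩)
        · rw [h1] at hab
          exact absurd rfl hab
        · refine ⟨j, i, ?_, by omega, fun t ht => by rw [T.xs1]; exact hmis t ht, Sym2.eq_swap⟩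
          by_contra h6
          exact hm3 (mem_PE.2 ⟨j, by omega, by rw [show j + 1 = i by omega, Sym2.eq_swap]⟩)
    · intro x y u v h1 h2
      have h5 := hZp _ h1 _ h2
      rw [hS.iff] at h5
      simpa using h5
    · intro s t h1 h2
      exact hZN _ h2 (mem_KS.2 ⟨s, t, h1, rfl⟩)

/-- GLUING, one level, in degree `n + 1` -/
theorem two_of_uN {a b : ℕ → V} {p m n : ℕ} (h : Two T a p b m) (hc : Crn T a b p m) (hS : Sees T cross)
    (h0 : ∃ i j, Br T a b p m i j)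
    (hU : ∀ i k l j, i < k → j < l → Br T a b p m i l → Br T a b p m k j →
      (∀ x y, Br T a b p m x y → x ≤ i → y ≤ j → False) →
      H66N.AcyN cross n (BU cross a b p m i k l j)) : H66N.AcyN cross (n + 1) (BE cross a b p m) := by
  refine H66N.glueN hS.symm _ _ rfl ?_ (be_grid h hc hS) ?_
  · obtain ⟨i, j, hb⟩ := h0
    exact ⟨_, (mem_be h hS).2 ⟨i, j, hb, rfl⟩⟩
  · intro e f hcd
    obtain ⟨m1, m2, lt, _⟩ := hcd
    obtain ⟨i, l, hb, rfl⟩ := (mem_be h hS).1 m1.1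
    obtain ⟨k, j, hb', rfl⟩ := (mem_be h hS).1 m2.1
    have e1 := be_pos h hb
    have e2 := be_pos h hb'
    rw [e1.1, e2.1] at lt
    have hjl : j < l := by
      have h5 := H98L.mn_y m1 m2 (by rw [e1.1, e2.1]; omega)
      rw [e1.2, e2.2] at h5
      rcases Nat.lt_or_ge j l with h6 | h6
      · exact h6
      · have h7 := m2.2 _ m1.1 ⟨by rw [e1.1, e2.1]; omega, by rw [e1.2, e2.2]; omega⟩
        rw [← e1.1, h7, e2.1] at lt
        exact absurd lt (lt_irrefl _)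
    refine hU i k l j lt hjl hb hb' fun x y hxy hx hy => ?_
    have e3 := be_pos h hxy
    have h7 := m1.2 _ ((mem_be h hS).2 ⟨x, y, hxy, rfl⟩) ⟨by rw [e3.1, e1.1]; exact hx, by rw [e3.2, e1.2]; omega⟩
    have h8 : H30P.pos b m s(a x, b y) = H30P.pos b m s(a i, b l) := by rw [h7]
    rw [e3.2, e1.2] at h8
    omega

/-- TWO, the step of the degree induction -/
theorem two_step (hS : Sees T cross) (hG : H98M.Geo cross) (g1 : G1 T) (g2 : G2 T) (g5 : G5 T) (g6 : G6 T)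
    {n : ℕ} (hH : ∀ W, H66N.HCk cross n W) {a b : ℕ → V} {p m : ℕ} (h : Two T a p b m)
    (hc : Crn T a b p m) : H66N.AcyN cross (n + 1) (BE cross a b p m) := by
  refine two_of_uN h hc hS (H56C.two_nonempty hG hS h) ?_
  intro i k l j hik hjl hb hb' hno
  obtain ⟨w, q, c, r1, r2, r3, r4, r5, r6, r8, r7⟩ := g5 a b p m i k l j h hc hik hjl hb hb'
  obtain ⟨w', q', c', s1, s2, s3, s4, s5, s6, s8, s7⟩ := g6 a b p m i k l j h hc hik hjl hb hb'
  obtain ⟨Q, hQ⟩ : ∃ Q : V → Prop, ∀ x, Q x ↔ (x = a 0 ∨ (∃ t, k ≤ t ∧ t ≤ p ∧ x = a t) ∨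
    ∃ t, l ≤ t ∧ t ≤ m ∧ x = b t) := ⟨_, fun x => Iff.rfl⟩
  obtain ⟨Q', hQ'⟩ : ∃ Q' : V → Prop, ∀ x, Q' x ↔ (x = a 0 ∨ (∃ t, 1 ≤ t ∧ t ≤ i ∧ x = a t) ∨
    ∃ t, 1 ≤ t ∧ t ≤ j ∧ x = b t) := ⟨_, fun x => Iff.rfl⟩
  have hQQ : ∀ x, Q x → Q' x → x = a 0 := by
    intro x h1 h2
    rw [hQ] at h1
    rw [hQ'] at h2
    have n1 := hb.2.1
    have n2 := hb.2.2.2.1
    have n3 := hb'.2.1
    have n4 := hb'.2.2.2.1
    rcases h1 with h1 | ⟨t, t1, t2, t3⟩ | ⟨t, t1, t2, t3⟩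
    · exact h1
    · rcases h2 with h2 | ⟨u, u1, u2, u3⟩ | ⟨u, u1, u2, u3⟩
      · exact h2
      · exact absurd (t3.symm.trans u3) (h.pa.toPer.ne_of (by omega) (by omega)).symm
      · exact absurd (t3.symm.trans u3) (h.dis0 (by omega) (by omega) (by omega))
    · rcases h2 with h2 | ⟨u, u1, u2, u3⟩ | ⟨u, u1, u2, u3⟩
      · exact h2
      · exact absurd (u3.symm.trans t3) (h.dis0 (by omega) (by omega) (by omega))
      · exact absurd (t3.symm.trans u3) (h.pb.toPer.ne_of (by omega) (by omega)).symm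
  have hR : RR T Q (a i) (b j) (a k) (b l) (a 0) w q c :=
    ⟨r1, r2, r3, r4, r5, r6, fun x hx => (hQ _).2 (r8 x hx)⟩
  have hR' : RR T Q' (a k) (b l) (a i) (b j) (a 0) w' q' c' :=
    ⟨s1, s2, s3, s4, s5, s6, fun x hx => (hQ' _).2 (s8 x hx)⟩
  have key := room_acyN hG (roomsys hS) (roomsys hS) (n := n) (fun w p c w' p' c' h1 h2 => by
      rcases cut_of hS g1 h1.1 with h3 | ⟨s, t, h3⟩
      · exact Or.inl h3
      · rcases cut_of hS g1 h2.1 with h4 | ⟨s', t', h4⟩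
        · exact Or.inr h4
        · exfalso
          obtain ⟨t1, t2, t3, t4, t5, t6, t7⟩ := h1
          obtain ⟨u1, u2, u3, u4, u5, u6, u7⟩ := h2
          rw [← t2, ← t3] at u1 h4
          refine g2 w p (a i) (b j) w' p' c c' s t s' t' t1 u1 u2 u3 t4 t5 u4 u5 (by rw [t6, u6]) ?_ h3 h4
          intro x hx y hy hxy
          have h5 := hQQ (w x) (t7 x hx) (by rw [hxy]; exact u7 y hy)
          exact t1.inj x hx c (by omega) (by rw [h5, t6]))
    (fun _ _ _ _ => hH _) hR hR' (fun x y hxy hx hy => by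
      obtain ⟨x', y', h1, h2, h3⟩ := s7 x y hxy hx hy
      exact hno x' y' h1 h2 h3)
  have he : BU cross a b p m i k l j = ST (fun w p => NCh T w p (a i) (b j)) w q c := by
    ext e
    rw [mem_bu h hS hik hjl hb hb', mem_ST, ← r7 e]
  rw [he]
  exact key

end

end H7B
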