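import Pool.Agent.Lib.H7B.Asm
import Pool.Agent.Lib.H30P.UpB

/-!
# H7B, file G56: the inputs `G5`, `G6` (from helper30's upper room)

The lower room is the upper room of the two reversed cycles.
-/

set_option autoImplicit false
set_option linter.unusedSectionVars false

namespace H7B

open H53P H30P H10S H36L H40X Finset

variable {V : Type*} [DecidableEq V] {T : Table V}

theorem g5_holds (T : Table V) : G5 T := by
  intro a b p m i k l j h hc hik hjl hb hb'
  have hC : Cd T a b p m i k l j := ⟨h, hc, hik, hjl, hb, hb'⟩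
  have har := hC.ar
  refine ⟨wU a b p m i k l, p + 1 - k + (m + 1 - l), p + 1 - k, up_room hC, wU_0, wU_q hC, by omega, by omega,
    wU_v hC, ?_, ?_⟩
  · intro x hx
    rcases wU_cases hC hx with ⟨h1, h2⟩ | ⟨h1, h2⟩ | ⟨h1, h2⟩
    · exact Or.inr (Or.inl ⟨k + x, by omega, by omega, h2⟩)
    · exact Or.inl h2
    · exact Or.inr (Or.inr ⟨_, by omega, by omega, h2⟩)
  · intro e
    constructor
    · rintro ⟨x, y, h1, h2, h3, rfl⟩
      have h4 := h1.le
      refine ⟨_, _, (up_nch hC h2 h3 h4).1 h1, by omega, by omega, ?_⟩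
      rcases wU_cases hC (t := x) (by omega) with ⟨h5, h6⟩ | ⟨h5, h6⟩ | ⟨h5, h6⟩
      · rcases wU_cases hC h4 with ⟨h7, h8⟩ | ⟨h7, h8⟩ | ⟨h7, h8⟩
        · omega
        · omega
        · rw [h6, h8]
      · omega
      · omega
    · rintro ⟨x, y, h1, h2, h3, rfl⟩
      have h4 := h1.2.1
      have h5 := h1.2.2.2.1
      refine ⟨x - k, p + 1 - k + (m + 1 - y), ?_, by omega, by omega, ?_⟩
      · rw [up_nch hC (by omega) (by omega) (by omega)]
        rw [show k + (x - k) = x by omega,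
          show m + 1 - (p + 1 - k + (m + 1 - y) - (p + 1 - k)) = y by omega]
        exact h1
      · rw [wU_a (by omega), wU_b hC (by omega), show k + (x - k) = x by omega,
          show m + 1 - (m + 1 - y) = y by omega]

/-- `Crn` for the two reversed cycles -/
theorem crn_rv {a b : ℕ → V} {p m : ℕ} (h : Two T a p b m) (hc : Crn T a b p m) :
    Crn T (rv a (p + 1)) (rv b (m + 1)) p m := by
  have hA := h.pa.toPer
  have hB := h.pb.toPer
  have p3 := hA.three
  have m3 := hB.three
  unfold Crn at hc ⊢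
  rw [rv_zero hA, rv_of (by omega), rv_of (by omega), rv_of (by omega), rv_of (by omega),
    show p + 1 - 1 = p by omega, show m + 1 - 1 = m by omega, show p + 1 - p = 1 by omega,
    show m + 1 - m = 1 by omega, T.as4]
  exact hc

theorem br_rv {a b : ℕ → V} {p m i j : ℕ} (h : Two T a p b m) (hb : Br T a b p m i j) :
    Br T (rv a (p + 1)) (rv b (m + 1)) p m (p + 1 - i) (m + 1 - j) := by
  obtain ⟨h1, h2, h3, h4, h5⟩ := hb
  refine ⟨by omega, by omega, by omega, by omega, ?_⟩
  rw [rv_of (by omega), rv_of (by omega), show p + 1 - (p + 1 - i) = i by omega,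
    show m + 1 - (m + 1 - j) = j by omega]
  exact (h5.rvb h).rva h.rvb

theorem g6_holds (T : Table V) : G6 T := by
  intro a b p m i k l j h hc hik hjl hb hb'
  have hA := h.pa.toPer
  have hB := h.pb.toPer
  have n1 := hb.1
  have n2 := hb'.2.1
  have n3 := hb'.2.2.1
  have n4 := hb.2.2.2.1
  obtain ⟨w, q, c, r1, r2, r3, r4, r5, r6, r8, r7⟩ := g5_holds T (rv a (p + 1)) (rv b (m + 1)) p m
    (p + 1 - k) (p + 1 - i) (m + 1 - j) (m + 1 - l) h.rva.rvb (crn_rv h hc) (by omega) (by omega)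
    (br_rv h hb') (br_rv h hb)
  have ea : ∀ t, 1 ≤ t → t ≤ p → rv a (p + 1) (p + 1 - t) = a t := by
    intro t h1 h2
    rw [rv_of (by omega), show p + 1 - (p + 1 - t) = t by omega]
  have eb : ∀ t, 1 ≤ t → t ≤ m → rv b (m + 1) (m + 1 - t) = b t := by
    intro t h1 h2
    rw [rv_of (by omega), show m + 1 - (m + 1 - t) = t by omega]
  rw [ea k (by omega) (by omega), eb l (by omega) (by omega)] at r1 r7
  rw [ea i (by omega) (by omega)] at r2
  rw [eb j (by omega) (by omega)] at r3
  rw [rv_zero hA] at r6 r8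
  refine ⟨w, q, c, r1, r2, r3, r4, r5, r6, ?_, ?_⟩
  · intro x hx
    rcases r8 x hx with h1 | ⟨t, h1, h2, h3⟩ | ⟨t, h1, h2, h3⟩
    · exact Or.inl h1
    · refine Or.inr (Or.inl ⟨p + 1 - t, by omega, by omega, ?_⟩)
      rw [h3, rv_of (by omega)]
    · refine Or.inr (Or.inr ⟨m + 1 - t, by omega, by omega, ?_⟩)
      rw [h3, rv_of (by omega)]
  · intro x y hxy hx hy
    obtain ⟨x', y', h1, h2, h3, _⟩ := (r7 _).1 ⟨x, y, hxy, hx, hy, rfl⟩
    have h4 := br_rv h.rva.rvb h1
    rw [rv_rv hA, rv_rv hB] at h4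
    exact ⟨_, _, h4, by omega, by omega⟩

end H7B
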