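import Pool.Agent.Lib.H33U.Lo
import Pool.Agent.Lib.H66N.N2

/-!
# H7B, file UpN: helper33's files Del, Up, Lo in degree `n`

* `prinN`, `principleN`: removing elements, in degree `n`;
* `link_acyN`, `str_acyN`: the complex of a room, abstract form;
* `room_acyN`: one crossing pair.
-/

set_option autoImplicit false
set_option linter.unusedSectionVars false

namespace H7B

open Finset H98P H98Z H98M H33U H66N

section
variable {E : Type*} [Fintype E] [DecidableEq E] {n : ℕ}

/-- All links. -/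
theorem prin_allN {cross : E → E → Prop} (hsymm : ∀ e f, cross e f → cross f e) {S T : Finset E}
    (hST : Disjoint S T)
    (hl : ∀ Y ⊆ T, Plane cross Y → AcyN cross n (Miss cross (S ∪ T) Y \ Y)) :
    ∀ Y ⊆ T, Plane cross Y → AcyN cross n (Miss cross S Y) := by
  have main : ∀ (k : ℕ) (Y : Finset E), (T \ Y).card = k → Y ⊆ T → Plane cross Y →
      AcyN cross n (Miss cross S Y) := by
    intro k
    induction k using Nat.strong_induction_on with
    | _ k ih =>
      intro Y hk hY hYp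
      have h0 : Miss cross (S ∪ T) Y \ Y = Miss cross S Y ∪ (Miss cross T Y \ Y) := by
        ext e
        rw [mem_sdiff, mem_miss, mem_union, mem_union, mem_miss, mem_sdiff, mem_miss]
        constructor
        · rintro ⟨⟨h1 | h1, h2⟩, h3⟩
          · exact Or.inl ⟨h1, h2⟩
          · exact Or.inr ⟨⟨h1, h2⟩, h3⟩
        · rintro (⟨h1, h2⟩ | ⟨⟨h1, h2⟩, h3⟩)
          · exact ⟨⟨Or.inl h1, h2⟩, fun h => disjoint_left.1 hST h1 (hY h)⟩
          · exact ⟨⟨Or.inr h1, h2⟩, h3⟩
      have hd : Disjoint (Miss cross S Y) (Miss cross T Y \ Y) := by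
        rw [disjoint_left]
        intro e he he'
        exact disjoint_left.1 hST (mem_miss.1 he).1 (mem_miss.1 (mem_sdiff.1 he').1).1
      refine splitN_mp hsymm hd ?_ (h0 ▸ hl Y hY hYp)
      intro Z hZ hZn hZp
      rw [miss_miss]
      have hZT : Z ⊆ T := fun e he => (mem_miss.1 (mem_sdiff.1 (hZ he)).1).1
      have hZY : ∀ e ∈ Z, e ∉ Y := fun e he => (mem_sdiff.1 (hZ he)).2
      obtain ⟨z, hz⟩ := hZn
      refine ih (T \ (Y ∪ Z)).card ?_ (Y ∪ Z) rfl (union_subset hY hZT) ?_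
      · rw [← hk]
        refine card_lt_card ?_
        rw [ssubset_iff_of_subset (sdiff_subset_sdiff (le_refl T) subset_union_left)]
        refine ⟨z, mem_sdiff.2 ⟨hZT hz, hZY z hz⟩, fun h => ?_⟩
        exact (mem_sdiff.1 h).2 (mem_union_right _ hz)
      · refine plane_un hsymm hYp hZp ?_
        intro e he f hf h
        exact (mem_miss.1 (mem_sdiff.1 (hZ hf)).1).2 e he (hsymm _ _ h)
  intro Y hY hYp
  exact main _ Y rfl hY hYp

/-- PRINCIPLE, abstract form. -/
theorem prinN {cross : E → E → Prop} (hsymm : ∀ e f, cross e f → cross f e) {S T : Finset E}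
    (hST : Disjoint S T)
    (hl : ∀ Y ⊆ T, Plane cross Y → AcyN cross n (Miss cross (S ∪ T) Y \ Y)) : AcyN cross n S := by
  have h := prin_allN hsymm hST hl ∅ (empty_subset T) (fun e he => absurd he (notMem_empty e))
  rwa [miss_empty'] at h

/-- JOIN. -/
theorem acy_joinN {cross : E → E → Prop} (hsymm : ∀ e f, cross e f → cross f e) {A B : Finset E}
    (hno : ∀ a ∈ A, ∀ b ∈ B, ¬ cross a b) (hA : AcyN cross n A) : AcyN cross n (A ∪ B) :=
  joinN hsymm hA hno

end

section
variable {V : Type*} [Fintype V] [DecidableEq V] {n : ℕ}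

/-- PRINCIPLE. `S` = some of the free edges; all plane sets `Z` of the other free edges have acyclic `Un (F + Z)`. -/
theorem principleN {cross : Sym2 V → Sym2 V → Prop} (hsymm : ∀ e f, cross e f → cross f e)
    {W : Finset V} {F S : Finset (Sym2 V)} (hS : S ⊆ Un cross W F)
    (hl : ∀ Z ⊆ Un cross W F \ S, Plane cross Z → AcyN cross n (Un cross W (F ∪ Z))) : AcyN cross n S := by
  refine prinN hsymm (T := Un cross W F \ S) disjoint_sdiff ?_
  intro Y hY hYp
  rw [union_sdiff_of_subset hS, ← un_un]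
  exact hl Y hY hYp

/-- A plane set which contains the path and has a position which is not straddled. -/
theorem acy_pathN {cross : Sym2 V → Sym2 V → Prop} {w : ℕ → V} {p : ℕ}
    (hw : ∀ i ≤ p, ∀ j ≤ p, w i = w j → i = j) (hH : HCk cross n (VS w p)) {F : Finset (Sym2 V)}
    (hF : F ⊆ LW (VS w p)) (hp : Plane cross F) (hP : PE w p ⊆ F) {t : ℕ} (t0 : 0 < t) (tp : t < p)
    (hc : ∀ x y, x < t → t < y → y ≤ p → s(w x, w y) ∉ F) : AcyN cross n (Un cross (VS w p) F) := by
  refine hH F (w t) hF hp (mem_VS.2 ⟨t, tp.le, rfl⟩) ?_ ?_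
  · rintro ⟨C, D, ⟨a, ha⟩, ⟨b, hb⟩, hCD, hCDW, hs⟩
    -- the whole path is on one side
    have key : ∀ (X Y : Finset V), X ∪ Y = VS w p → (∀ x ∈ X, ∀ y ∈ Y, s(x, y) ∉ F) → w 0 ∈ X →
        ∀ i ≤ p, w i ∈ X := by
      intro X Y hXY hno h0 i
      induction i with
      | zero => exact fun _ => h0
      | succ i ih =>
        intro hi
        have h1 := ih (by omega)
        have h2 : w (i + 1) ∈ X ∪ Y := by
          rw [hXY]
          exact mem_VS.2 ⟨i + 1, hi, rfl⟩
        rcases mem_union.1 h2 with h | h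
        · exact h
        · exact absurd (hP (mem_PE.2 ⟨i, by omega, rfl⟩)) (hno _ h1 _ h)
    have h0 : w 0 ∈ C ∪ D := by
      rw [hCDW]
      exact mem_VS.2 ⟨0, by omega, rfl⟩
    rcases mem_union.1 h0 with h | h
    · have hb' : b ∈ VS w p := hCDW ▸ mem_union_right _ hb
      obtain ⟨i, hi, rfl⟩ := mem_VS.1 hb'
      exact disjoint_left.1 hCD (key C D hCDW hs h i hi) hb
    · have ha' : a ∈ VS w p := hCDW ▸ mem_union_left _ ha
      obtain ⟨i, hi, rfl⟩ := mem_VS.1 ha'
      refine disjoint_left.1 hCD ha (key D C (by rw [union_comm]; exact hCDW) ?_ h i hi)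
      intro x hx y hy
      rw [Sym2.eq_swap]
      exact hs y hy x hx
  · refine ⟨(range t).image w, (Finset.Icc (t + 1) p).image w,
      ⟨w 0, mem_image_of_mem _ (mem_range.2 t0)⟩,
      ⟨w p, mem_image_of_mem _ (Finset.mem_Icc.2 ⟨tp, le_rfl⟩)⟩, ?_, ?_, ?_⟩
    · rw [disjoint_left]
      intro u hu hu'
      obtain ⟨i, hi, rfl⟩ := mem_image.1 hu
      obtain ⟨j, hj, h1⟩ := mem_image.1 hu'
      rw [mem_range] at hi
      rw [Finset.mem_Icc] at hj
      have := hw j hj.2 i (by omega) h1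
      omega
    · ext u
      rw [mem_union, mem_erase, mem_image, mem_image, mem_VS]
      constructor
      · rintro (⟨i, hi, rfl⟩ | ⟨i, hi, rfl⟩)
        · rw [mem_range] at hi
          exact ⟨fun h => by have := hw i (by omega) t (by omega) h; omega, i, by omega, rfl⟩
        · rw [Finset.mem_Icc] at hi
          exact ⟨fun h => by have := hw i hi.2 t (by omega) h; omega, i, hi.2, rfl⟩
      · rintro ⟨h1, i, hi, rfl⟩
        rcases Nat.lt_trichotomy i t with h2 | h2 | h2
        · exact Or.inl ⟨i, mem_range.2 h2, rfl⟩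
        · exact absurd (by rw [h2]) h1
        · exact Or.inr ⟨i, Finset.mem_Icc.2 ⟨h2, hi⟩, rfl⟩
    · intro x hx y hy h
      obtain ⟨i, hi, rfl⟩ := mem_image.1 hx
      obtain ⟨j, hj, rfl⟩ := mem_image.1 hy
      rw [mem_range] at hi
      rw [Finset.mem_Icc] at hj
      exact hc i j hi (by omega) hj.2 (mem_filter.1 h).1

end

section
variable {V : Type*} [Fintype V] [DecidableEq V] {n : ℕ}
variable {cross : Sym2 V → Sym2 V → Prop} {R : (ℕ → V) → ℕ → ℕ → Prop}
  {N : (ℕ → V) → ℕ → ℕ → ℕ → Prop}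

/-- the complex of all chords -/
theorem base_acyN (hsymm : ∀ e f, cross e f → cross f e) (hS : RoomSys cross R N) {w : ℕ → V}
    {p c : ℕ} (hR : R w p c) (hcut : Cut cross N w p) (hH : HCk cross n (VS w p)) :
    AcyN cross n (KS N w p) := by
  have hw := hS.inj hR
  have hKS : KS N w p ⊆ Un cross (VS w p) (PE w p) := by
    intro e he
    obtain ⟨i, j, hN, rfl⟩ := mem_KS.1 he
    obtain ⟨h1, h2⟩ := hS.ch hR hN
    rw [mem_un, mem_LW]
    refine ⟨⟨mem_VS.2 ⟨i, by omega, rfl⟩, mem_VS.2 ⟨j, h2, rfl⟩, fun h => ?_⟩, hS.mis hR hN, ?_⟩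
    · have := hw i (by omega) j h2 h
      omega
    · intro h
      obtain ⟨k, hk, h3⟩ := mem_PE.1 h
      have := pos_eq hw (by omega) (by omega) (by omega) (by omega) h3
      omega
  refine principleN hsymm hKS ?_
  intro Z hZ hZp
  have hZU : Z ⊆ Un cross (VS w p) (PE w p) := hZ.trans sdiff_subset
  obtain ⟨t, t0, tp, ht⟩ := hcut Z hZU hZp (fun e he => (mem_sdiff.1 (hZ he)).2)
  refine acy_pathN hw hH ?_ ?_ subset_union_left t0 tp ?_
  · intro e he
    rcases mem_union.1 he with h | h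
    · obtain ⟨k, hk, rfl⟩ := mem_PE.1 h
      rw [mem_LW]
      refine ⟨mem_VS.2 ⟨k, by omega, rfl⟩, mem_VS.2 ⟨k + 1, by omega, rfl⟩, fun h => ?_⟩
      have := hw k (by omega) (k + 1) (by omega) h
      omega
    · exact (mem_un.1 (hZU h)).1
  · refine plane_un hsymm (hS.pl hR) hZp ?_
    intro e he f hf h
    exact (mem_un.1 (hZU hf)).2.1 e he (hsymm _ _ h)
  · intro x y hx hy hyp h
    rcases mem_union.1 h with h | h
    · obtain ⟨k, hk, h3⟩ := mem_PE.1 h
      have := pos_eq hw (by omega) (by omega) (by omega) (by omega) h3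
      omega
    · exact ht x y hx hy hyp h

/-- LINKS. -/
theorem link_acyN (hsymm : ∀ e f, cross e f → cross f e) (hS : RoomSys cross R N)
    (hcut : ∀ w p c, R w p c → Cut cross N w p) (hH : ∀ w p c, R w p c → HCk cross n (VS w p)) :
    ∀ (p : ℕ) (w : ℕ → V) (c : ℕ), R w p c → ∀ Y ⊆ NS N w p c, Plane cross Y →
      AcyN cross n (Miss cross (KS N w p) Y \ Y) := by
  intro p
  induction p using Nat.strong_induction_on with
  | _ p ih =>
    intro w c hR Y hY hYp
    have hw := hS.inj hR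
    obtain ⟨hc0, hcp⟩ := hS.pos hR
    rcases Y.eq_empty_or_nonempty with rfl | ⟨e, he⟩
    · rw [miss_empty', sdiff_empty]
      exact base_acyN hsymm hS hR (hcut w p c hR) (hH w p c hR)
    obtain ⟨j, k, hN, hjk, rfl⟩ := mem_NS.1 (hY he)
    obtain ⟨h1, h2⟩ := hS.ch hR hN
    have hR' := hS.sh hR hN hjk
    have hshn := hS.shn hR hN hjk
    -- the short room
    have hK' : ∀ f, f ∈ KS N (fun t => w (iy j k t)) (p - (k - j - 1)) ↔
        ∃ x y, N w p x y ∧ (x ≤ j ∨ k ≤ x) ∧ (y ≤ j ∨ k ≤ y) ∧ (x ≠ j ∨ y ≠ k) ∧ s(w x, w y) = f := by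
      intro f
      rw [mem_KS]
      constructor
      · rintro ⟨x, y, hxy, rfl⟩
        obtain ⟨h3, h4, h5⟩ := (hshn x y).1 hxy
        refine ⟨iy j k x, iy j k y, h5, ?_, ?_, ?_, rfl⟩
        · unfold iy
          split_ifs <;> omega
        · unfold iy
          split_ifs <;> omega
        · unfold iy
          split_ifs <;> omega
      · rintro ⟨x, y, hxy, hx, hy, hne, rfl⟩
        obtain ⟨h3, h4⟩ := hS.ch hR hxy
        have ex : ∀ z, (z ≤ j ∨ k ≤ z) → iy j k (if z ≤ j then z else z - (k - j - 1)) = z := by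
          intro z hz
          unfold iy
          split_ifs <;> omega
        refine ⟨if x ≤ j then x else x - (k - j - 1), if y ≤ j then y else y - (k - j - 1), ?_, ?_⟩
        · rw [hshn, ex x hx, ex y hy]
          refine ⟨?_, ?_, hxy⟩
          · split_ifs <;> omega
          · split_ifs <;> omega
        · show s(w (iy j k _), w (iy j k _)) = _
          rw [ex x hx, ex y hy]
    set K' := KS N (fun t => w (iy j k t)) (p - (k - j - 1)) with hK'def
    set P := PK N w p j k with hPdef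
    have hno : ∀ f ∈ K', ∀ g ∈ P, ¬ cross f g := by
      intro f hf g hg
      obtain ⟨x, y, hxy, hx, hy, hne, rfl⟩ := (hK' f).1 hf
      obtain ⟨x', y', hxy', hx', hy', hne', rfl⟩ := mem_PK.1 hg
      have h3 := hS.ch hR hxy
      have h4 := hS.ch hR hxy'
      rw [hS.il hR hxy hxy']
      omega
    have hdis : Disjoint K' P := by
      rw [disjoint_left]
      intro f hf hg
      obtain ⟨x, y, hxy, hx, hy, hne, rfl⟩ := (hK' f).1 hf
      obtain ⟨x', y', hxy', hx', hy', hne', h5⟩ := mem_PK.1 hg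
      have h3 := hS.ch hR hxy
      have h4 := hS.ch hR hxy'
      have h6 := pos_eq hw (by omega) h4.2 (by omega) h3.2 h5
      omega
    have hsplit : Miss cross (KS N w p) Y \ Y =
        (Miss cross K' (Y ∩ K') \ (Y ∩ K')) ∪ (Miss cross P (Y ∩ P) \ (Y ∩ P)) := by
      have hYcase : ∀ g ∈ Y, g ∈ K' ∨ g ∈ P ∨ g = s(w j, w k) := by
        intro g hg
        obtain ⟨x, y, hxy, hxc, rfl⟩ := mem_NS.1 (hY hg)
        have h3 := hS.ch hR hxy
        have h4 : ¬ cross s(w x, w y) s(w j, w k) := hYp _ hg _ he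
        rw [hS.il hR hxy hN] at h4
        by_cases h5 : x = j ∧ y = k
        · right; right
          rw [h5.1, h5.2]
        · by_cases h6 : j ≤ x ∧ y ≤ k
          · right; left
            exact mem_PK.2 ⟨x, y, hxy, h6.1, h6.2, by omega, rfl⟩
          · left
            exact (hK' _).2 ⟨x, y, hxy, by omega, by omega, by omega, rfl⟩
      ext f
      rw [mem_sdiff, mem_miss, mem_union, mem_sdiff, mem_miss, mem_sdiff, mem_miss]
      constructor
      · rintro ⟨⟨hf, hf2⟩, hf3⟩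
        obtain ⟨x, y, hxy, rfl⟩ := mem_KS.1 hf
        have h3 := hS.ch hR hxy
        have h4 := hf2 _ he
        rw [hS.il hR hxy hN] at h4
        have h5 : ¬ (x = j ∧ y = k) := by
          rintro ⟨rfl, rfl⟩
          exact hf3 he
        by_cases h6 : j ≤ x ∧ y ≤ k
        · right
          refine ⟨⟨mem_PK.2 ⟨x, y, hxy, h6.1, h6.2, by omega, rfl⟩, fun g hg => hf2 g (mem_inter.1 hg).1⟩,
            fun h => hf3 (mem_inter.1 h).1⟩
        · left
          refine ⟨⟨(hK' _).2 ⟨x, y, hxy, by omega, by omega, by omega, rfl⟩,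
            fun g hg => hf2 g (mem_inter.1 hg).1⟩, fun h => hf3 (mem_inter.1 h).1⟩
      · rintro (⟨⟨hf, hf2⟩, hf3⟩ | ⟨⟨hf, hf2⟩, hf3⟩)
        · obtain ⟨x, y, hxy, hx, hy, hne, rfl⟩ := (hK' f).1 hf
          refine ⟨⟨mem_KS.2 ⟨x, y, hxy, rfl⟩, fun g hg => ?_⟩, fun h => hf3 (mem_inter.2 ⟨h, hf⟩)⟩
          rcases hYcase g hg with h | h | h
          · exact hf2 g (mem_inter.2 ⟨hg, h⟩)
          · exact hno _ hf g h
          · rw [h, hS.il hR hxy hN]
            have h3 := hS.ch hR hxy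
            omega
        · obtain ⟨x, y, hxy, hx, hy, hne, rfl⟩ := mem_PK.1 hf
          refine ⟨⟨mem_KS.2 ⟨x, y, hxy, rfl⟩, fun g hg => ?_⟩, fun h => hf3 (mem_inter.2 ⟨h, hf⟩)⟩
          rcases hYcase g hg with h | h | h
          · exact fun h' => hno g h _ hf (hsymm _ _ h')
          · exact hf2 g (mem_inter.2 ⟨hg, h⟩)
          · rw [h, hS.il hR hxy hN]
            omega
    rw [hsplit]
    refine acy_joinN hsymm ?_ ?_
    · intro f hf g hg
      exact hno f (mem_miss.1 (mem_sdiff.1 hf).1).1 g (mem_miss.1 (mem_sdiff.1 hg).1).1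
    · refine ih _ (by omega) _ _ hR' _ ?_ (plane_sub inter_subset_left hYp)
      intro f hf
      obtain ⟨hf1, hf2⟩ := mem_inter.1 hf
      obtain ⟨x, y, hxy, rfl⟩ := mem_KS.1 (hK'def ▸ hf2)
      obtain ⟨h3, h4, h5⟩ := (hshn x y).1 hxy
      obtain ⟨x', y', hxy', hc', h6⟩ := mem_NS.1 (hY hf1)
      have h7 := hS.ch hR hxy'
      have h8 := hS.ch hR h5
      have h9 := pos_eq hw (by omega) h7.2 (by omega) h8.2 h6
      refine mem_NS.2 ⟨x, y, hxy, ?_, rfl⟩
      obtain ⟨h10, h11⟩ := h9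
      subst h10 h11
      unfold iy at hc'
      split_ifs at hc' ⊢ <;> omega

/-- The chords which straddle `c`. -/
theorem str_acyN (hsymm : ∀ e f, cross e f → cross f e) (hS : RoomSys cross R N)
    (hcut : ∀ w p c, R w p c → Cut cross N w p) (hH : ∀ w p c, R w p c → HCk cross n (VS w p))
    {w : ℕ → V} {p c : ℕ} (hR : R w p c) : AcyN cross n (ST N w p c) := by
  have hw := hS.inj hR
  have hK : KS N w p = ST N w p c ∪ NS N w p c := by
    ext f
    rw [mem_union, mem_KS, mem_ST, mem_NS]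
    constructor
    · rintro ⟨i, j, h, rfl⟩
      by_cases h1 : i < c ∧ c < j
      · exact Or.inl ⟨i, j, h, h1.1, h1.2, rfl⟩
      · exact Or.inr ⟨i, j, h, by omega, rfl⟩
    · rintro (⟨i, j, h, _, _, rfl⟩ | ⟨i, j, h, _, rfl⟩)
      · exact ⟨i, j, h, rfl⟩
      · exact ⟨i, j, h, rfl⟩
  refine prinN hsymm (S := ST N w p c) (T := NS N w p c) ?_ ?_
  · rw [disjoint_left]
    intro f hf hg
    obtain ⟨i, j, h, h1, h2, rfl⟩ := mem_ST.1 hf
    obtain ⟨x, y, h', h3, h4⟩ := mem_NS.1 hg
    have h5 := hS.ch hR h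
    have h6 := hS.ch hR h'
    have := pos_eq hw (by omega) h6.2 (by omega) h5.2 h4
    omega
  · intro Y hY hYp
    rw [← hK]
    exact link_acyN hsymm hS hcut hH p w c hR Y hY hYp

/-- ONE CROSSING PAIR. -/
theorem room_acyN (hG : Geo cross) {R R' : (ℕ → V) → ℕ → ℕ → Prop}
    {N N' : (ℕ → V) → ℕ → ℕ → ℕ → Prop} (hS : RoomSys cross R N) (hS' : RoomSys cross R' N')
    (hX : ∀ w p c w' p' c', R w p c → R' w' p' c' → Cut cross N w p ∨ Cut cross N' w' p')
    (hH : ∀ w p c, R w p c → HCk cross n (VS w p)) {w : ℕ → V} {p c : ℕ} (hR : R w p c)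
    {w' : ℕ → V} {p' c' : ℕ} (hR' : R' w' p' c')
    (hno : ∀ x y, N' w' p' x y → x < c' → c' < y → False) : AcyN cross n (ST N w p c) := by
  obtain ⟨u, q, d, h1, h2⟩ := lo_short hS' p' w' c' hR' hno
  refine str_acyN hG.symm hS (fun w p c h => ?_) hH hR
  rcases hX w p c u q d h h1 with h3 | h3
  · exact h3
  · exact absurd h3 (lo_cut hG hS' h1 h2)

end

end H7B
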